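import Pool.Agent.Helper58.QD.StM

/-!
# Project QD, module Cmi: energy and Nash inequality combined
-/

set_option autoImplicit false

namespace Pool.Agent.Helper22.QD

open Helper62.LH Helper62.DSH Helper58.QD MeasureTheory Set Filter Topology
open scoped ContDiff ENNReal

private theorem ip_smul {n : ℕ} (g : E n → Bl n) (x : E n) (c : ℝ) (a : E n →L[ℝ] ℝ) :
    ip g x (c • a) (c • a) = c ^ 2 * ip g x a a := by
  simp only [ip, trg, _root_.smul_apply, smul_eq_mul, Finset.mul_sum]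
  refine Finset.sum_congr rfl fun i _ => Finset.sum_congr rfl fun j _ => ?_
  ring

private theorem tau_pos {T s : ℝ} (hT : 0 < T) (hs : 0 < s) : 0 < tau T s := by
  unfold tau
  positivity

private theorem tau_le {T s : ℝ} (hT : 0 < T) (hs : 0 < s) : tau T s ≤ s := by
  unfold tau
  rw [div_le_iff₀ (by positivity)]
  nlinarith

private theorem tau_sq {T s : ℝ} (hT : 0 < T) (hs : 0 < s) :
    (T / (T + s)) ^ 2 * s ≤ tau T s := by
  have h0 : 0 < T + s := by positivity
  have h1 : T / (T + s) ≤ 1 := by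
    rw [div_le_one h0]
    linarith
  have h2 : 0 < T / (T + s) := by positivity
  have h3 : tau T s = T / (T + s) * s := by
    unfold tau
    ring
  rw [h3, sq]
  have h4 : 0 < T / (T + s) * s := by positivity
  nlinarith

private theorem F_le {T s : ℝ} (hT : 0 < T) (hs : 0 < s) (q : ℕ) (hq : 1 ≤ q) :
    (q * tau T s ^ (q - 1) * (T / (T + s)) ^ 2) * s ≤ q * tau T s ^ q := by
  obtain ⟨k, rfl⟩ : ∃ k, q = k + 1 := ⟨q - 1, by omega⟩
  have h1 := tau_sq hT hs
  have h2 := tau_pos hT hs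
  have h3 : 0 ≤ ((k + 1 : ℕ) : ℝ) * tau T s ^ k := by positivity
  rw [Nat.add_sub_cancel, pow_succ]
  calc ((k + 1 : ℕ) : ℝ) * tau T s ^ k * (T / (T + s)) ^ 2 * s
      = (((k + 1 : ℕ) : ℝ) * tau T s ^ k) * ((T / (T + s)) ^ 2 * s) := by ring
    _ ≤ (((k + 1 : ℕ) : ℝ) * tau T s ^ k) * tau T s := mul_le_mul_of_nonneg_left h1 h3
    _ = ((k + 1 : ℕ) : ℝ) * (tau T s ^ k * tau T s) := by ring

private theorem alg {F w Fp q : ℝ} (hF : 0 < F) (hw : 0 < w) (hFp : 0 ≤ Fp) (h : Fp * w ≤ q * F) :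
    (Fp * w + F) ^ 2 / (2 * (F * w)) ≤ q * Fp + F / w := by
  have h1 : q * Fp + F / w = (2 * ((Fp * w) * (q * F)) + 2 * F ^ 2) / (2 * (F * w)) := by
    field_simp
  rw [h1]
  refine div_le_div_of_nonneg_right ?_ (by positivity)
  have h2 : 0 ≤ Fp * w := by positivity
  nlinarith [sq_nonneg (Fp * w - F)]

private theorem tau_deriv {T s : ℝ} (hT : 0 < T) (hs : 0 < s) :
    HasDerivAt (fun s => tau T s) ((T / (T + s)) ^ 2) s := by
  have h0 : T + s ≠ 0 := by positivity
  have h1 : HasDerivAt (fun s : ℝ => T * s) T s := by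
    simpa using (hasDerivAt_id s).const_mul T
  have h2 : HasDerivAt (fun s : ℝ => T + s) 1 s := by
    simpa using (hasDerivAt_id s).const_add T
  have h3 := h1.div h2 h0
  have h4 : (T * (T + s) - T * s * 1) / (T + s) ^ 2 = (T / (T + s)) ^ 2 := by
    rw [div_pow]
    congr 1
    ring
  rw [h4] at h3
  exact h3

private theorem phi_deriv {T s : ℝ} (hT : 0 < T) (hs : 0 < s) (q : ℕ) :
    HasDerivAt (fun s => tau T s ^ q * s)
      ((q * tau T s ^ (q - 1) * (T / (T + s)) ^ 2) * s + tau T s ^ q) s := by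
  have h : HasDerivAt (fun s => tau T s ^ q * s) _ s :=
    ((tau_deriv hT hs).pow q).mul (hasDerivAt_id s)
  refine h.congr_deriv ?_
  simp

private theorem gz_le {n : ℕ} (hIna : StIna) (g : E n → Bl n) (hg : IsMet g) (χ w : E n → ℝ)
    (hχ : ContDiff ℝ ∞ χ) (hw : ContDiff ℝ ∞ w) (hw0 : ∀ y, 0 < w y) (T : ℝ) (hT : 0 < T)
    (q : ℕ) (hq : 1 ≤ q) (y : E n) :
    gs g (fun y => χ y * √(tau T (w y) ^ q * w y)) y ≤
      2 * (tau T (w y) ^ q * w y * gs g χ y) +
        (q * (χ y ^ 2 * (q * tau T (w y) ^ (q - 1) * (T / (T + w y)) ^ 2) * gs g w y) +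
          χ y ^ 2 * tau T (w y) ^ q * (gs g w y / w y)) := by
  obtain ⟨i1, -, -, -, -, i6, -, -⟩ := hIna n g hg y
  have hwy := hw0 y
  have ht := tau_pos hT hwy
  have hF : 0 < tau T (w y) ^ q := by positivity
  have hFw : 0 < tau T (w y) ^ q * w y := by positivity
  have dw : HasFDerivAt w (fderiv ℝ w y) y :=
    (hw.differentiable (by simp) y).hasFDerivAt
  have dχ : HasFDerivAt χ (fderiv ℝ χ y) y :=
    (hχ.differentiable (by simp) y).hasFDerivAt
  have d1 := ((phi_deriv hT hwy q).sqrt hFw.ne').comp_hasFDerivAt y dw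
  have d2 := dχ.mul d1
  obtain ⟨Fp, hFp⟩ : ∃ Fp, Fp = q * tau T (w y) ^ (q - 1) * (T / (T + w y)) ^ 2 := ⟨_, rfl⟩
  obtain ⟨F, hFd⟩ : ∃ F, F = tau T (w y) ^ q := ⟨_, rfl⟩
  have hFp0 : 0 ≤ Fp := by rw [hFp]; positivity
  have hle : Fp * w y ≤ q * F := by
    rw [hFp, hFd]
    exact F_le hT hwy q hq
  have d3 : fderiv ℝ (fun y => χ y * √(tau T (w y) ^ q * w y)) y =
      (χ y * ((Fp * w y + F) / (2 * √(F * w y)))) • fderiv ℝ w y +
        √(F * w y) • fderiv ℝ χ y := by
    rw [hFp, hFd]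
    refine (HasFDerivAt.fderiv ?_)
    have h := d2
    simp only [Function.comp_def] at h
    rw [smul_smul] at h
    exact h
  have hFpos : 0 < F := by rw [hFd]; exact hF
  have hsq : √(F * w y) ^ 2 = F * w y := Real.sq_sqrt (by positivity)
  have hs0 : 0 < √(F * w y) := Real.sqrt_pos.2 (by positivity)
  have h6 := i6 ((χ y * ((Fp * w y + F) / (2 * √(F * w y)))) • fderiv ℝ w y)
    (√(F * w y) • fderiv ℝ χ y) 1 one_pos
  rw [ip_smul, ip_smul, hsq] at h6
  have hgw : 0 ≤ gs g w y := i1 _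
  have halg := alg hFpos hwy hFp0 hle
  have h7 : (χ y * ((Fp * w y + F) / (2 * √(F * w y)))) ^ 2 * 2 =
      χ y ^ 2 * ((Fp * w y + F) ^ 2 / (2 * (F * w y))) := by
    rw [mul_pow, div_pow, mul_pow, hsq]
    have : F * w y ≠ 0 := by positivity
    field_simp
  have h8 : 0 ≤ χ y ^ 2 * gs g w y := mul_nonneg (sq_nonneg _) hgw
  rw [← hFp, ← hFd]
  have h9 : gs g (fun y => χ y * √(tau T (w y) ^ q * w y)) y =
      ip g y ((χ y * ((Fp * w y + F) / (2 * √(F * w y)))) • fderiv ℝ w y +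
        √(F * w y) • fderiv ℝ χ y) ((χ y * ((Fp * w y + F) / (2 * √(F * w y)))) • fderiv ℝ w y +
        √(F * w y) • fderiv ℝ χ y) := by
    rw [gs, d3]
  rw [h9]
  refine h6.trans ?_
  have h10 : gs g w y = ip g y (fderiv ℝ w y) (fderiv ℝ w y) := rfl
  have h11 : gs g χ y = ip g y (fderiv ℝ χ y) (fderiv ℝ χ y) := rfl
  rw [← h10, ← h11]
  calc (1 + 1) * ((χ y * ((Fp * w y + F) / (2 * √(F * w y)))) ^ 2 * gs g w y) +
        (1 + 1 / 1) * (F * w y * gs g χ y)
      = ((χ y * ((Fp * w y + F) / (2 * √(F * w y)))) ^ 2 * 2) * gs g w y +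
          2 * (F * w y * gs g χ y) := by ring
    _ = (χ y ^ 2 * gs g w y) * ((Fp * w y + F) ^ 2 / (2 * (F * w y))) +
          2 * (F * w y * gs g χ y) := by rw [h7]; ring
    _ ≤ (χ y ^ 2 * gs g w y) * (q * Fp + F / w y) + 2 * (F * w y * gs g χ y) := by
        have := mul_le_mul_of_nonneg_left halg h8
        linarith
    _ = 2 * (F * w y * gs g χ y) + (q * (χ y ^ 2 * Fp * gs g w y) +
          χ y ^ 2 * F * (gs g w y / w y)) := by ring

/-- CMI. -/
theorem hCmi : StIna → StUt → StDlv → SBal → SNsh → SCmi := by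
  intro hIna hUt hDlv hBal hNsh n g Γ hg hΓ hc hS
  obtain ⟨C, hC0, hC⟩ := hNsh n g Γ hg hΓ hc hS
  obtain ⟨u1, -, u3, u4, -, -⟩ := hUt n g hg
  refine ⟨40 * C + 1, by linarith, ?_⟩
  intro x ρ r lam G0 T e p w χ hr hrρ hlam hT he hp hw hw0 hχ hχ1 hsup hG hSub
  obtain ⟨q, hq⟩ : ∃ q, q = 2 * p - 1 := ⟨_, rfl⟩
  have hq1 : 1 ≤ q := by omega
  rw [← hq] at hSub ⊢
  have hρ : 0 < ρ := lt_of_lt_of_le hr hrρ
  -- continuity
  have cw : Continuous w := hw.continuous
  have cχ : Continuous χ := hχ.1.continuous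
  have cdw : Continuous (fun y => fderiv ℝ w y) := hw.continuous_fderiv (by simp)
  have cdχ : Continuous (fun y => fderiv ℝ χ y) := hχ.1.continuous_fderiv (by simp)
  have cgw : Continuous (gs g w) := u1 _ _ cdw cdw
  have cgχ : Continuous (gs g χ) := u1 _ _ cdχ cdχ
  have ctau : Continuous (fun y => tau T (w y)) := by
    unfold tau
    exact (continuous_const.mul cw).div (continuous_const.add cw) fun y => by
      have := hw0 y
      positivity
  have cq : Continuous (fun y => T / (T + w y)) :=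
    continuous_const.div (continuous_const.add cw) fun y => by
      have := hw0 y
      positivity
  have sχ2 : HasCompactSupport (fun y => χ y ^ 2) := by
    have h := hχ.2.mul_left (f := χ)
    have h2 : (χ * χ) = fun y => χ y ^ 2 := by
      funext y
      simp [sq]
    rwa [h2] at h
  have sabs : HasCompactSupport (fun y => |χ y|) := hχ.2.comp_left abs_zero
  have gs0 : ∀ y, y ∉ tsupport χ → gs g χ y = 0 := by
    intro y hy
    have h1 : fderiv ℝ χ y = 0 := fderiv_of_notMem_tsupport ℝ hy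
    rw [gs, h1]
    simp [ip, trg]
  have sgs : HasCompactSupport (gs g χ) :=
    HasCompactSupport.intro hχ.2 gs0
  -- integrability
  have ia : Integrable (fun y => χ y ^ 2 * tau T (w y) ^ q * (gs g w y / w y) * vol g y) := by
    refine Continuous.integrable_of_hasCompactSupport
      ((((cχ.pow 2).mul (ctau.pow q)).mul (cgw.div cw fun y => (hw0 y).ne')).mul u3) ?_
    have h := ((sχ2.mul_right (f' := fun y => tau T (w y) ^ q)).mul_right
      (f' := fun y => gs g w y / w y)).mul_right (f' := vol g)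
    exact h
  have ib : Integrable (fun y => χ y ^ 2 * (q * tau T (w y) ^ (q - 1) *
      (T / (T + w y)) ^ 2) * gs g w y * vol g y) := by
    refine Continuous.integrable_of_hasCompactSupport
      ((((cχ.pow 2).mul ((continuous_const.mul (ctau.pow (q - 1))).mul (cq.pow 2))).mul
        cgw).mul u3) ?_
    have h := ((sχ2.mul_right (f' := fun y => (q * tau T (w y) ^ (q - 1) *
      (T / (T + w y)) ^ 2))).mul_right (f' := gs g w)).mul_right (f' := vol g)
    exact h
  have ic : Integrable (fun y => |χ y| * tau T (w y) ^ q *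
      (√(gs g χ y) * √(gs g w y)) * vol g y) := by
    refine Continuous.integrable_of_hasCompactSupport
      (((cχ.abs.mul (ctau.pow q)).mul (cgχ.sqrt.mul cgw.sqrt)).mul u3) ?_
    have h := ((sabs.mul_right (f' := fun y => tau T (w y) ^ q)).mul_right
      (f' := fun y => √(gs g χ y) * √(gs g w y))).mul_right (f' := vol g)
    exact h
  have id' : Integrable (fun y => χ y ^ 2 * tau T (w y) ^ q * w y * vol g y) := by
    refine Continuous.integrable_of_hasCompactSupport
      ((((cχ.pow 2).mul (ctau.pow q)).mul cw).mul u3) ?_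
    have h := ((sχ2.mul_right (f' := fun y => tau T (w y) ^ q)).mul_right
      (f' := w)).mul_right (f' := vol g)
    exact h
  have ij : Integrable (fun y => tau T (w y) ^ q * w y * gs g χ y * vol g y) := by
    refine Continuous.integrable_of_hasCompactSupport
      ((((ctau.pow q).mul cw).mul cgχ).mul u3) ?_
    have h := (sgs.mul_left (f := fun y => tau T (w y) ^ q * w y)).mul_right (f' := vol g)
    exact h
  obtain ⟨A, hA⟩ : ∃ A, A = ∫ y, χ y ^ 2 * tau T (w y) ^ q * (gs g w y / w y) * vol g y :=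
    ⟨_, rfl⟩
  obtain ⟨B, hB⟩ : ∃ B, B = ∫ y, χ y ^ 2 * (q * tau T (w y) ^ (q - 1) *
      (T / (T + w y)) ^ 2) * gs g w y * vol g y := ⟨_, rfl⟩
  obtain ⟨I1, hI1⟩ : ∃ I1, I1 = ∫ y, |χ y| * tau T (w y) ^ q *
      (√(gs g χ y) * √(gs g w y)) * vol g y := ⟨_, rfl⟩
  obtain ⟨I2, hI2⟩ : ∃ I2, I2 = ∫ y, χ y ^ 2 * tau T (w y) ^ q * w y * vol g y := ⟨_, rfl⟩
  obtain ⟨J, hJ⟩ : ∃ J, J = ∫ y, tau T (w y) ^ q * w y * gs g χ y * vol g y := ⟨_, rfl⟩
  obtain ⟨I3, hI3⟩ : ∃ I3, I3 = ∫ y in tsupport χ, tau T (w y) ^ q * w y * vol g y := ⟨_, rfl⟩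
  obtain ⟨I4, hI4⟩ : ∃ I4, I4 = ∫ y in tsupport χ, tau T (w y) ^ (p - 1) * w y * vol g y :=
    ⟨_, rfl⟩
  have hS' : (1 / 4) * A + (1 / 2) * B ≤ I1 + lam * I2 + e := by
    rw [hA, hB, hI1, hI2]
    exact hSub
  have i1 : ∀ y, ∀ a : E n →L[ℝ] ℝ, 0 ≤ ip g y a a := fun y => (hIna n g hg y).1
  have gw0 : ∀ y, 0 ≤ gs g w y := fun y => i1 y _
  have gχ0 : ∀ y, 0 ≤ gs g χ y := fun y => i1 y _
  have t0 : ∀ y, 0 < tau T (w y) := fun y => tau_pos hT (hw0 y)
  have A0 : 0 ≤ A := by
    rw [hA]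
    refine integral_nonneg fun y => ?_
    have h1 := gw0 y
    have h2 := hw0 y
    have h3 := u4 y
    have h4 := t0 y
    positivity
  have B0 : 0 ≤ B := by
    rw [hB]
    refine integral_nonneg fun y => ?_
    have h1 := gw0 y
    have h2 := hw0 y
    have h3 := u4 y
    have h4 := t0 y
    positivity
  have J0 : 0 ≤ J := by
    rw [hJ]
    refine integral_nonneg fun y => ?_
    have h1 := gχ0 y
    have h2 := hw0 y
    have h3 := u4 y
    have h4 := t0 y
    positivity
  have I20 : 0 ≤ I2 := by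
    rw [hI2]
    refine integral_nonneg fun y => ?_
    have h2 := hw0 y
    have h3 := u4 y
    have h4 := t0 y
    positivity
  -- Young
  have hY : I1 ≤ (1 / 8) * A + 2 * J := by
    rw [hI1, hA, hJ, ← integral_const_mul, ← integral_const_mul,
      ← integral_add (ia.const_mul _) (ij.const_mul _)]
    refine integral_mono ic ((ia.const_mul _).add (ij.const_mul _)) fun y => ?_
    have h1 := gw0 y
    have h1' := gχ0 y
    have h2 := hw0 y
    have h3 := u4 y
    have h4 := t0 y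
    obtain ⟨a, ha⟩ : ∃ a, a = √(gs g w y) := ⟨_, rfl⟩
    obtain ⟨b, hb⟩ : ∃ b, b = √(gs g χ y) := ⟨_, rfl⟩
    have ha2 : gs g w y = a ^ 2 := by rw [ha, Real.sq_sqrt h1]
    have hb2 : gs g χ y = b ^ 2 := by rw [hb, Real.sq_sqrt h1']
    have hc2 : χ y ^ 2 = |χ y| ^ 2 := (sq_abs _).symm
    show |χ y| * tau T (w y) ^ q * (√(gs g χ y) * √(gs g w y)) * vol g y ≤
      1 / 8 * (χ y ^ 2 * tau T (w y) ^ q * (gs g w y / w y) * vol g y) +
        2 * (tau T (w y) ^ q * w y * gs g χ y * vol g y)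
    rw [← ha, ← hb, ha2, hb2, hc2]
    have h5 : 1 / 8 * (|χ y| ^ 2 * tau T (w y) ^ q * (a ^ 2 / w y) * vol g y) +
        2 * (tau T (w y) ^ q * w y * b ^ 2 * vol g y) -
        |χ y| * tau T (w y) ^ q * (b * a) * vol g y =
        tau T (w y) ^ q * vol g y / (8 * w y) * (|χ y| * a - 4 * (w y * b)) ^ 2 := by
      field_simp
      ring
    have h6 : 0 ≤ tau T (w y) ^ q * vol g y / (8 * w y) * (|χ y| * a - 4 * (w y * b)) ^ 2 := by
      positivity
    linarith
  -- the test function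
  have hz : ContDiff ℝ ∞ (fun y => χ y * √(tau T (w y) ^ q * w y)) := by
    refine hχ.1.mul (ContDiff.sqrt ?_ fun y => ?_)
    · unfold tau
      refine ((((contDiff_const.mul hw).div (contDiff_const.add hw) fun y => ?_)).pow q).mul hw
      have := hw0 y
      positivity
    · have h2 := hw0 y
      have h4 := t0 y
      positivity
  have hzs : HasCompactSupport (fun y => χ y * √(tau T (w y) ^ q * w y)) :=
    hχ.2.mul_right (f' := fun y => √(tau T (w y) ^ q * w y))
  have i5 : Integrable (fun y => q * (χ y ^ 2 * (q * tau T (w y) ^ (q - 1) *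
      (T / (T + w y)) ^ 2) * gs g w y * vol g y) +
      χ y ^ 2 * tau T (w y) ^ q * (gs g w y / w y) * vol g y) := (ib.const_mul _).add ia
  have hgz : ∫ y, gs g (fun y => χ y * √(tau T (w y) ^ q * w y)) y * vol g y ≤
      2 * J + (q * B + A) := by
    have e1 : 2 * J + (q * B + A) = ∫ y, (2 * (tau T (w y) ^ q * w y * gs g χ y * vol g y) +
        (q * (χ y ^ 2 * (q * tau T (w y) ^ (q - 1) * (T / (T + w y)) ^ 2) * gs g w y *
          vol g y) + χ y ^ 2 * tau T (w y) ^ q * (gs g w y / w y) * vol g y)) := by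
      rw [integral_add (ij.const_mul _) i5,
        integral_add (ib.const_mul _) ia, integral_const_mul, integral_const_mul, hJ, hB, hA]
    rw [e1]
    have cz : Continuous (fun y => fderiv ℝ (fun y => χ y * √(tau T (w y) ^ q * w y)) y) :=
      hz.continuous_fderiv (by simp)
    have sz : HasCompactSupport (gs g (fun y => χ y * √(tau T (w y) ^ q * w y))) := by
      refine HasCompactSupport.intro hzs fun y hy => ?_
      have h1 : fderiv ℝ (fun y => χ y * √(tau T (w y) ^ q * w y)) y = 0 :=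
        fderiv_of_notMem_tsupport ℝ hy
      rw [gs, h1]
      simp [ip, trg]
    refine integral_mono (Continuous.integrable_of_hasCompactSupport ((u1 _ _ cz cz).mul u3)
      (sz.mul_right (f' := vol g))) ((ij.const_mul _).add ((ib.const_mul _).add ia)) fun y => ?_
    have h1 := gz_le hIna g hg χ w hχ.1 hw hw0 T hT q hq1 y
    have h2 := mul_le_mul_of_nonneg_right h1 (u4 y).le
    refine h2.trans (le_of_eq ?_)
    ring
  have hN := hC x ρ r hr hrρ _ ⟨hz, hzs⟩ (fun y hy => hsup (subset_tsupport _ (fun h0 => hy (by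
    show χ y * _ = 0
    rw [h0, zero_mul]))))
  -- the two integrals over the support
  have hK : IsCompact (tsupport χ) := hχ.2
  have hm : MeasurableSet (tsupport χ) := (isClosed_tsupport χ).measurableSet
  have i3 : IntegrableOn (fun y => tau T (w y) ^ q * w y * vol g y) (tsupport χ) :=
    (((ctau.pow q).mul cw).mul u3).continuousOn.integrableOn_compact hK
  have i4 : IntegrableOn (fun y => tau T (w y) ^ (p - 1) * w y * vol g y) (tsupport χ) :=
    (((ctau.pow (p - 1)).mul cw).mul u3).continuousOn.integrableOn_compact hK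
  have G00 : 0 ≤ G0 := (gχ0 x).trans (hG x)
  have I30 : 0 ≤ I3 := by
    rw [hI3]
    refine integral_nonneg fun y => ?_
    have h2 := hw0 y
    have h3 := u4 y
    have h4 := t0 y
    positivity
  have hJ3 : J ≤ G0 * I3 := by
    have h1 : J = ∫ y in tsupport χ, tau T (w y) ^ q * w y * gs g χ y * vol g y := by
      rw [hJ]
      refine (setIntegral_eq_integral_of_forall_compl_eq_zero fun y hy => ?_).symm
      rw [gs0 y hy, mul_zero, zero_mul]
    rw [h1, hI3, ← integral_const_mul]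
    refine integral_mono ij.integrableOn (i3.const_mul _) fun y => ?_
    have h2 := hw0 y
    have h3 := u4 y
    have h4 := t0 y
    have h5 : 0 ≤ tau T (w y) ^ q * w y * vol g y := by positivity
    show tau T (w y) ^ q * w y * gs g χ y * vol g y ≤ G0 * (tau T (w y) ^ q * w y * vol g y)
    calc tau T (w y) ^ q * w y * gs g χ y * vol g y
        = gs g χ y * (tau T (w y) ^ q * w y * vol g y) := by ring
      _ ≤ G0 * (tau T (w y) ^ q * w y * vol g y) := mul_le_mul_of_nonneg_right (hG y) h5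
  have hI23 : I2 ≤ I3 := by
    have h1 : I2 = ∫ y in tsupport χ, χ y ^ 2 * tau T (w y) ^ q * w y * vol g y := by
      rw [hI2]
      refine (setIntegral_eq_integral_of_forall_compl_eq_zero fun y hy => ?_).symm
      rw [image_eq_zero_of_notMem_tsupport hy]
      ring
    rw [h1, hI3]
    refine integral_mono id'.integrableOn i3 fun y => ?_
    have h2 := hw0 y
    have h3 := u4 y
    have h4 := t0 y
    have h5 : 0 ≤ tau T (w y) ^ q * w y * vol g y := by positivity
    have h6 : χ y ^ 2 ≤ 1 := pow_le_one₀ (hχ1 y).1 (hχ1 y).2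
    show χ y ^ 2 * tau T (w y) ^ q * w y * vol g y ≤ tau T (w y) ^ q * w y * vol g y
    calc χ y ^ 2 * tau T (w y) ^ q * w y * vol g y
        = χ y ^ 2 * (tau T (w y) ^ q * w y * vol g y) := by ring
      _ ≤ 1 * (tau T (w y) ^ q * w y * vol g y) := mul_le_mul_of_nonneg_right h6 h5
      _ = tau T (w y) ^ q * w y * vol g y := one_mul _
  have hsqrt : ∀ y, √(tau T (w y) ^ q * w y) ≤ tau T (w y) ^ (p - 1) * w y := by
    intro y
    have h2 := hw0 y
    have h4 := t0 y
    have h5 := tau_le hT (hw0 y)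
    rw [Real.sqrt_le_left (by positivity)]
    obtain ⟨k, rfl⟩ : ∃ k, p = k + 1 := ⟨p - 1, by omega⟩
    have h6 : q = 2 * k + 1 := by omega
    rw [h6, Nat.add_sub_cancel]
    have h7 : (tau T (w y) ^ k * w y) ^ 2 = tau T (w y) ^ (2 * k) * w y * w y := by ring
    have h8 : tau T (w y) ^ (2 * k + 1) * w y = tau T (w y) ^ (2 * k) * w y * tau T (w y) := by
      ring
    rw [h7, h8]
    exact mul_le_mul_of_nonneg_left h5 (by positivity)
  have hz4 : ∫ y, |χ y * √(tau T (w y) ^ q * w y)| * vol g y ≤ I4 := by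
    have h1 : (∫ y, |χ y * √(tau T (w y) ^ q * w y)| * vol g y) =
        ∫ y in tsupport χ, |χ y * √(tau T (w y) ^ q * w y)| * vol g y := by
      refine (setIntegral_eq_integral_of_forall_compl_eq_zero fun y hy => ?_).symm
      rw [image_eq_zero_of_notMem_tsupport hy, zero_mul, abs_zero, zero_mul]
    rw [h1, hI4]
    refine integral_mono ?_ i4 fun y => ?_
    · exact ((hz.continuous.abs).mul u3).continuousOn.integrableOn_compact hK
    · have h2 := hw0 y
      have h3 := u4 y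
      have h4 := t0 y
      show |χ y * √(tau T (w y) ^ q * w y)| * vol g y ≤ tau T (w y) ^ (p - 1) * w y * vol g y
      refine mul_le_mul_of_nonneg_right ?_ h3.le
      rw [abs_mul, abs_of_nonneg (hχ1 y).1, abs_of_nonneg (Real.sqrt_nonneg _)]
      calc χ y * √(tau T (w y) ^ q * w y) ≤ 1 * √(tau T (w y) ^ q * w y) :=
            mul_le_mul_of_nonneg_right (hχ1 y).2 (Real.sqrt_nonneg _)
        _ = √(tau T (w y) ^ q * w y) := one_mul _
        _ ≤ tau T (w y) ^ (p - 1) * w y := hsqrt y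
  have hz0 : 0 ≤ ∫ y, |χ y * √(tau T (w y) ^ q * w y)| * vol g y :=
    integral_nonneg fun y => mul_nonneg (abs_nonneg _) (u4 y).le
  have hzsq : (∫ y, (χ y * √(tau T (w y) ^ q * w y)) ^ 2 * vol g y) = I2 := by
    rw [hI2]
    congr 1
    funext y
    have h2 := hw0 y
    have h4 := t0 y
    rw [mul_pow, Real.sq_sqrt (by positivity)]
    ring
  have hvb : 0 < vb g x ρ := (hBal n g Γ hg hΓ hc x).2.2.1 ρ hρ
  have hp1 : (1 : ℝ) ≤ p := by exact_mod_cast hp
  have hqp : (q : ℝ) = 2 * p - 1 := by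
    have h : q + 1 = 2 * p := by omega
    have h' : (q : ℝ) + 1 = 2 * p := by exact_mod_cast h
    linarith
  rw [hzsq] at hN
  rw [← hI2, ← hI3, ← hI4]
  -- arithmetic
  obtain ⟨D, hD⟩ : ∃ D, D = 2 * J + lam * I2 + e := ⟨_, rfl⟩
  have hAB : A / 8 + B / 2 ≤ D := by
    rw [hD]
    linarith
  have hD0 : 0 ≤ D := by
    rw [hD]
    positivity
  have hqBA : q * B + A ≤ (4 * p + 6) * D := by
    rw [hqp]
    have h1 : (4 * (p : ℝ) + 6) * (A / 8 + B / 2) ≤ (4 * p + 6) * D :=
      mul_le_mul_of_nonneg_left hAB (by positivity)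
    have h2 : 0 ≤ (4 * (p : ℝ) - 2) * A := mul_nonneg (by linarith) A0
    nlinarith [B0, A0]
  have hDle : D ≤ 2 * (G0 * I3) + lam * I3 + e := by
    rw [hD]
    have := mul_le_mul_of_nonneg_left hI23 hlam
    linarith
  have hgz2 : ∫ y, gs g (fun y => χ y * √(tau T (w y) ^ q * w y)) y * vol g y ≤
      40 * p * ((G0 + lam) * I3 + e) := by
    refine hgz.trans ?_
    have h1 : (4 * (p : ℝ) + 6) * D ≤ (4 * p + 6) * (2 * (G0 * I3) + lam * I3 + e) :=
      mul_le_mul_of_nonneg_left hDle (by positivity)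
    have h2 : 0 ≤ G0 * I3 := mul_nonneg G00 I30
    have h3 : 0 ≤ lam * I3 := mul_nonneg hlam I30
    have h4 : 0 ≤ (p - 1 : ℝ) * (G0 * I3) := mul_nonneg (by linarith) h2
    have h5 : 0 ≤ (p - 1 : ℝ) * (lam * I3) := mul_nonneg (by linarith) h3
    have h6 : 0 ≤ (p - 1 : ℝ) * e := mul_nonneg (by linarith) he
    nlinarith
  have hr2 : 0 ≤ C * r ^ 2 := by positivity
  have hM : 0 ≤ (ρ / r) ^ n / vb g x ρ := by positivity
  have hsq4 : (∫ y, |χ y * √(tau T (w y) ^ q * w y)| * vol g y) ^ 2 ≤ I4 ^ 2 :=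
    pow_le_pow_left₀ hz0 hz4 2
  refine hN.trans (add_le_add ?_ ?_)
  · have h1 := mul_le_mul_of_nonneg_left hgz2 hr2
    refine h1.trans ?_
    have h2 : 0 ≤ (G0 + lam) * I3 + e := by positivity
    have h3 : 0 ≤ r ^ 2 * p * ((G0 + lam) * I3 + e) := by positivity
    calc C * r ^ 2 * (40 * p * ((G0 + lam) * I3 + e))
        = (40 * C) * (r ^ 2 * p * ((G0 + lam) * I3 + e)) := by ring
      _ ≤ (40 * C + 1) * (r ^ 2 * p * ((G0 + lam) * I3 + e)) :=
          mul_le_mul_of_nonneg_right (by linarith) h3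
      _ = (40 * C + 1) * r ^ 2 * p * ((G0 + lam) * I3 + e) := by ring
  · have h1 : 0 ≤ (ρ / r) ^ n / vb g x ρ * I4 ^ 2 := mul_nonneg hM (sq_nonneg _)
    calc C * (ρ / r) ^ n / vb g x ρ *
          (∫ y, |χ y * √(tau T (w y) ^ q * w y)| * vol g y) ^ 2
        = (C * ((ρ / r) ^ n / vb g x ρ)) *
          (∫ y, |χ y * √(tau T (w y) ^ q * w y)| * vol g y) ^ 2 := by ring
      _ ≤ (C * ((ρ / r) ^ n / vb g x ρ)) * I4 ^ 2 :=
          mul_le_mul_of_nonneg_left hsq4 (mul_nonneg hC0.le hM)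
      _ = C * ((ρ / r) ^ n / vb g x ρ * I4 ^ 2) := by ring
      _ ≤ (40 * C + 1) * ((ρ / r) ^ n / vb g x ρ * I4 ^ 2) :=
          mul_le_mul_of_nonneg_right (by linarith) h1
      _ = (40 * C + 1) * (ρ / r) ^ n / vb g x ρ * I4 ^ 2 := by ring

end Pool.Agent.Helper22.QD
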