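import Pool.Agent.Helper58.QD.StF
import Pool.Agent.Helper81.DSH.M_PLJ

/-!
# Project QD, module Hmt: homotopy formula for forms
-/

set_option autoImplicit false

namespace Pool.Agent.Helper22.QD

open Helper62.LH Helper62.DSH Helper58.QD MeasureTheory Set Filter Topology
open scoped ContDiff ENNReal

noncomputable section

section smooth

variable {n k : ℕ}

/-- evaluation of a form at the standard basis vectors -/
private def evc (n k : ℕ) : Fk n k →ₗ[ℝ] Tn n k where
  toFun A I := A (fun k => ee (I k))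
  map_add' _ _ := rfl
  map_smul' _ _ := rfl

private theorem expd (C : Fk n k) (v : Fin k → E n) :
    C v = ∑ I : Fin k → Fin n, (∏ a, (v a) (I a)) * evc n k C I := by
  have hv : v = fun k => ∑ a, (v k) a • (ee a : E n) := by
    funext k
    ext i
    simp [ee, Finset.sum_apply, Pi.single_apply]
  have h2 : C v = C.toMultilinearMap (fun k => ∑ a, (v k) a • (ee a : E n)) :=
    congrArg C hv
  rw [h2, MultilinearMap.map_sum]
  apply Finset.sum_congr rfl
  intro I _
  rw [MultilinearMap.map_smul_univ]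
  rfl

private theorem evc_inj : Function.Injective (evc n k) := by
  intro A B h
  ext v
  rw [expd, expd B, h]

variable {P : Type} [NormedAddCommGroup P] [NormedSpace ℝ P]

/-- a family of forms with smooth components is smooth -/
private theorem sm_mk {f : P → Fk n k}
    (h : ∀ I : Fin k → Fin n, ContDiff ℝ ∞ (fun p => f p (fun a => ee (I a)))) :
    ContDiff ℝ ∞ f := by
  obtain ⟨M, hM⟩ := LinearMap.exists_leftInverse_of_injective (evc n k)
    (LinearMap.ker_eq_bot.2 evc_inj)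
  have hMe : ∀ C, M (evc n k C) = C := fun C => LinearMap.congr_fun hM C
  obtain ⟨M', hM'⟩ : ∃ M' : Tn n k →L[ℝ] Fk n k, ∀ t, M' t = M t :=
    ⟨LinearMap.toContinuousLinearMap M, fun t => rfl⟩
  have h1 : f = fun p => M' (evc n k (f p)) := by
    funext p
    rw [hM']
    exact (hMe (f p)).symm
  have h2 : ContDiff ℝ ∞ (fun p => evc n k (f p)) := contDiff_pi.2 h
  rw [h1]
  exact M'.contDiff.comp h2

/-- smoothness of the values of a smooth family of forms on smooth vectors -/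
private theorem sm_ev {α : P → Fk n k} (hα : ContDiff ℝ ∞ α) {w : P → Fin k → E n}
    (hw : ∀ a, ContDiff ℝ ∞ (fun p => w p a)) : ContDiff ℝ ∞ (fun p => α p (w p)) := by
  have h1 : (fun p => α p (w p)) =
      fun p => ∑ I : Fin k → Fin n, (∏ a, (w p a) (I a)) * evc n k (α p) I := by
    funext p
    exact expd _ _
  rw [h1]
  refine ContDiff.sum fun I _ => ContDiff.mul ?_ ?_
  · refine contDiff_prod fun a _ => ?_
    exact (EuclideanSpace.proj (I a) : E n →L[ℝ] ℝ).contDiff.comp (hw a)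
  · obtain ⟨Λ, hΛ⟩ : ∃ Λ : Fk n k →L[ℝ] ℝ, ∀ C, Λ C = C (fun a => ee (I a)) :=
      ⟨ContinuousAlternatingMap.apply ℝ (E n) ℝ (fun a => ee (I a)), fun C => rfl⟩
    have h2 : ContDiff ℝ ∞ (fun p => Λ (α p)) := Λ.contDiff.comp hα
    simp only [hΛ] at h2
    exact h2

private theorem sm_pb {α : P → Fk n k} (hα : ContDiff ℝ ∞ α) {L : P → E n →L[ℝ] E n}
    (hL : ContDiff ℝ ∞ L) : ContDiff ℝ ∞ (fun p => pb (L p) (α p)) := by
  refine sm_mk fun I => ?_
  exact sm_ev hα (w := fun p a => L p (ee (I a))) fun a => hL.clm_apply contDiff_const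

private theorem gen_cl {A B : Type*} [NormedAddCommGroup A] [NormedSpace ℝ A]
    [NormedAddCommGroup B] [NormedSpace ℝ B] (C : A →L[ℝ] E n →L[ℝ] B) {α : P → A}
    (hα : ContDiff ℝ ∞ α) {v : P → E n} (hv : ContDiff ℝ ∞ v) :
    ContDiff ℝ ∞ (fun p => C (α p) (v p)) :=
  (C.contDiff.comp hα).clm_apply hv

private theorem sm_cl {α : P → Fk n (k + 1)} (hα : ContDiff ℝ ∞ α) {v : P → E n}
    (hv : ContDiff ℝ ∞ v) : ContDiff ℝ ∞ (fun p => (α p).curryLeft (v p)) := by
  have h := gen_cl (A := E n [⋀^Fin (k + 1)]→L[ℝ] ℝ) (B := E n [⋀^Fin k]→L[ℝ] ℝ)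
    ContinuousAlternatingMap.curryLeftLI.toContinuousLinearMap hα hv
  simp only [LinearIsometry.coe_toContinuousLinearMap,
    ContinuousAlternatingMap.curryLeftLI_apply] at h
  exact h

end smooth

section abs

variable {n j : ℕ}

private theorem removeNth_zero_cons (v : Fin (j + 1) → E n) :
    Fin.removeNth 0 (Fin.cons ((0 : E n), (1 : ℝ)) (fun i => (v i, (0 : ℝ))) :
      Fin (j + 1 + 1) → E n × ℝ) = fun i => (v i, 0) := by
  funext k
  simp [Fin.removeNth]

private theorem removeNth_succ_cons (v : Fin (j + 1) → E n) (i : Fin (j + 1)) :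
    Fin.removeNth i.succ (Fin.cons ((0 : E n), (1 : ℝ)) (fun i => (v i, (0 : ℝ))) :
      Fin (j + 1 + 1) → E n × ℝ) =
      Fin.cons ((0 : E n), (1 : ℝ)) (fun k => (i.removeNth v k, (0 : ℝ))) := by
  funext k
  refine Fin.cases ?_ (fun k => ?_) k
  · simp [Fin.removeNth]
  · simp [Fin.removeNth]

/-- Cartan type identity on the product. -/
private theorem key_abs (Om : E n × ℝ → (E n × ℝ) [⋀^Fin (j + 1)]→L[ℝ] ℝ)
    (hOm : ∀ q, DifferentiableAt ℝ Om q) (hcl : ∀ q, extDeriv Om q = 0)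
    (Φ : E n × ℝ → Fk n (j + 1)) (G : E n × ℝ → Fk n j)
    (hΦ : ∀ q (v : Fin (j + 1) → E n), Om q (fun i => (v i, (0 : ℝ))) = Φ q v)
    (hGv : ∀ q (v : Fin j → E n),
      Om q (Fin.cons ((0 : E n), (1 : ℝ)) (fun i => (v i, (0 : ℝ)))) = G q v)
    (hG : ContDiff ℝ ∞ G) (x : E n) (s : ℝ) (v : Fin (j + 1) → E n) :
    fderiv ℝ (fun q : E n × ℝ => Φ q v) (x, s) (0, 1) =
      extDeriv (fun y => G (y, s)) x v := by
  have h0 : extDeriv Om (x, s)
      (Fin.cons ((0 : E n), (1 : ℝ)) (fun i => (v i, (0 : ℝ)))) = 0 := by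
    rw [hcl]
    rfl
  rw [extDeriv_apply (hOm (x, s)), Fin.sum_univ_succ] at h0
  have hGs : ContDiff ℝ ∞ (fun y => G (y, s)) := hG.comp (contDiff_id.prodMk contDiff_const)
  rw [extDeriv_apply ((hGs.differentiable (by simp)) x)]
  have e2 : ∀ i : Fin (j + 1), fderiv ℝ (fun q : E n × ℝ => G q (i.removeNth v)) (x, s)
        (v i, 0) = fderiv ℝ (fun y => G (y, s) (i.removeNth v)) x (v i) := by
    intro i
    have h1 : DifferentiableAt ℝ (fun q : E n × ℝ => G q (i.removeNth v)) (x, s) :=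
      ((sm_ev hG (w := fun _ => i.removeNth v) fun _ => contDiff_const).differentiable
        (by simp)) (x, s)
    have h2 : HasFDerivAt (fun y : E n => (y, s)) (ContinuousLinearMap.inl ℝ (E n) ℝ) x :=
      hasFDerivAt_prodMk_left x s
    have h3 := (h1.hasFDerivAt.comp x h2).fderiv
    have h4 := congrArg (fun L : E n →L[ℝ] ℝ => L (v i)) h3
    simp only [Function.comp_def, ContinuousLinearMap.comp_apply,
      ContinuousLinearMap.inl_apply] at h4
    exact h4.symm
  simp only [removeNth_zero_cons, removeNth_succ_cons, hΦ, hGv, Fin.cons_zero, Fin.cons_succ,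
    Fin.val_zero, pow_zero, one_smul, Fin.val_succ, pow_succ, mul_neg, mul_one, neg_smul,
    Finset.sum_neg_distrib, e2] at h0
  linarith

private theorem hom_abs (Φ : E n × ℝ → Fk n (j + 1)) (G : E n × ℝ → Fk n j)
    (hΦ : ContDiff ℝ ∞ Φ) (hG : ContDiff ℝ ∞ G)
    (key : ∀ (x : E n) (s : ℝ) (v : Fin (j + 1) → E n),
      fderiv ℝ (fun q : E n × ℝ => Φ q v) (x, s) (0, 1) = extDeriv (fun y => G (y, s)) x v)
    (x : E n) :
    extDeriv (fun x => ∫ s in (0 : ℝ)..1, G (x, s)) x = Φ (x, 1) - Φ (x, 0) := by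
  obtain ⟨hint, hD⟩ := Pool.Agent.Helper81.DSH.par_D (G := fun x s => G (x, s)) hG x
  ext v
  obtain ⟨Λ, hΛ⟩ : ∃ Λ : (E n →L[ℝ] Fk n j) →L[ℝ] ℝ, ∀ M,
      Λ M = ContinuousAlternatingMap.alternatizeUncurryFin M v :=
    ⟨(ContinuousAlternatingMap.apply ℝ (E n) ℝ v).comp
      (ContinuousAlternatingMap.alternatizeUncurryFinCLM ℝ (E n) ℝ), fun M => rfl⟩
  have hΛ2 : ∀ (ω' : E n → Fk n j) (y : E n), Λ (fderiv ℝ ω' y) = extDeriv ω' y v :=
    fun ω' y => hΛ _
  have h1 : extDeriv (fun x => ∫ s in (0 : ℝ)..1, G (x, s)) x v = ∫ s in (0 : ℝ)..1,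
      extDeriv (fun y => G (y, s)) x v := by
    rw [← hΛ2, hD, ← ContinuousLinearMap.intervalIntegral_comp_comm _ hint]
    simp only [hΛ2]
  have hΦv : ContDiff ℝ ∞ (fun q : E n × ℝ => Φ q v) :=
    sm_ev hΦ (w := fun _ => v) fun _ => contDiff_const
  have hder : ∀ s ∈ uIcc (0 : ℝ) 1, HasDerivAt (fun s : ℝ => Φ (x, s) v)
      (extDeriv (fun y => G (y, s)) x v) s := by
    intro s _
    rw [← key]
    have h3 : HasFDerivAt (fun q : E n × ℝ => Φ q v)
        (fderiv ℝ (fun q : E n × ℝ => Φ q v) (x, s)) (x, s) :=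
      ((hΦv.differentiable (by simp)) (x, s)).hasFDerivAt
    have h4 : HasDerivAt (fun s : ℝ => (x, s)) ((0 : E n), (1 : ℝ)) s :=
      (hasDerivAt_const s x).prodMk (hasDerivAt_id s)
    exact h3.comp_hasDerivAt s h4
  have hint2 : IntervalIntegrable (fun s => extDeriv (fun y => G (y, s)) x v) volume 0 1 := by
    have h5 : Continuous (fun s : ℝ => fderiv ℝ (fun q : E n × ℝ => Φ q v) (x, s) (0, 1)) :=
      ((hΦv.continuous_fderiv (by simp)).comp
        (continuous_const.prodMk continuous_id)).clm_apply continuous_const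
    simp only [key] at h5
    exact h5.intervalIntegrable 0 1
  rw [h1, intervalIntegral.integral_eq_sub_of_hasDerivAt hder hint2,
    ContinuousAlternatingMap.sub_apply]

end abs

section hom

variable {n j : ℕ} {Y : E n → E n}

private theorem sm_dY (hY : ContDiff ℝ ∞ Y) :
    ContDiff ℝ ∞ (fun q : E n × ℝ => dY Y q.2 q.1) := by
  unfold dY
  have h1 : ContDiff ℝ ∞ (fun q : E n × ℝ => fderiv ℝ Y q.1) :=
    (hY.fderiv_right (m := ∞) (by simp)).comp contDiff_fst
  exact contDiff_const.add (contDiff_snd.smul h1)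

private theorem sm_H (hY : ContDiff ℝ ∞ Y) :
    ContDiff ℝ ∞ (fun q : E n × ℝ => q.1 + q.2 • Y q.1) :=
  contDiff_fst.add (contDiff_snd.smul (hY.comp contDiff_fst))

private theorem D_H (hY : ContDiff ℝ ∞ Y) (q : E n × ℝ) (v : E n) (r : ℝ) :
    fderiv ℝ (fun q : E n × ℝ => q.1 + q.2 • Y q.1) q (v, r) =
      dY Y q.2 q.1 v + r • Y q.1 := by
  have h0 : HasFDerivAt Y (fderiv ℝ Y q.1) q.1 := (hY.differentiable (by simp) q.1).hasFDerivAt
  have h1 : HasFDerivAt (fun q : E n × ℝ => Y q.1)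
      ((fderiv ℝ Y q.1).comp (ContinuousLinearMap.fst ℝ (E n) ℝ)) q := h0.comp q hasFDerivAt_fst
  have h2 := (hasFDerivAt_fst (𝕜 := ℝ) (p := q)).add
    ((hasFDerivAt_snd (𝕜 := ℝ) (p := q)).smul h1)
  have h3 := congrArg (fun L : E n × ℝ →L[ℝ] E n => L (v, r)) h2.fderiv
  simp only [dY, _root_.add_apply, _root_.smul_apply, ContinuousLinearMap.id_apply]
  simp only [_root_.add_apply, _root_.smul_apply, ContinuousLinearMap.comp_apply,
    ContinuousLinearMap.smulRight_apply, ContinuousLinearMap.coe_fst',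
    ContinuousLinearMap.coe_snd'] at h3
  rw [add_assoc]
  exact h3

/-- the pull back to the product with the line -/
private def Om (μ : E n → Fk n (j + 1)) (Y : E n → E n) (q : E n × ℝ) :
    (E n × ℝ) [⋀^Fin (j + 1)]→L[ℝ] ℝ :=
  (μ (q.1 + q.2 • Y q.1)).compContinuousLinearMap
    (fderiv ℝ (fun q : E n × ℝ => q.1 + q.2 • Y q.1) q)

private theorem Om_diff (hY : ContDiff ℝ ∞ Y) {μ : E n → Fk n (j + 1)} (hμ : ContDiff ℝ ∞ μ)
    (q : E n × ℝ) : DifferentiableAt ℝ (Om μ Y) q := by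
  have h1 : DifferentiableAt ℝ (fun q : E n × ℝ => μ (q.1 + q.2 • Y q.1)) q :=
    ((hμ.comp (sm_H hY)).differentiable (by simp)) q
  have h2 : DifferentiableAt ℝ (fderiv ℝ (fun q : E n × ℝ => q.1 + q.2 • Y q.1)) q :=
    (((sm_H hY).fderiv_right (m := ∞) (by simp)).differentiable (by simp)) q
  exact h1.continuousAlternatingMapCompContinuousLinearMap h2

private theorem two_le : minSmoothness ℝ 2 ≤ (∞ : WithTop ℕ∞) := by
  rw [minSmoothness_of_isRCLikeNormedField]
  show ((2 : ℕ∞) : WithTop ℕ∞) ≤ ((⊤ : ℕ∞) : WithTop ℕ∞)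
  exact WithTop.coe_le_coe.2 le_top

private theorem Om_closed (hY : ContDiff ℝ ∞ Y) {μ : E n → Fk n (j + 1)} (hμ : ContDiff ℝ ∞ μ)
    (hcl : ∀ x, extDeriv μ x = 0) (q : E n × ℝ) : extDeriv (Om μ Y) q = 0 := by
  have h0 : DifferentiableAt ℝ μ (q.1 + q.2 • Y q.1) := (hμ.differentiable (by simp)) _
  have h := extDeriv_pullback (𝕜 := ℝ) (r := ∞) (x := q)
    (f := fun q : E n × ℝ => q.1 + q.2 • Y q.1) h0 (sm_H hY).contDiffAt two_le
  rw [hcl] at h
  refine h.trans ?_
  ext v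
  rfl

private theorem Om_zero (hY : ContDiff ℝ ∞ Y) (μ : E n → Fk n (j + 1)) (q : E n × ℝ)
    (v : Fin (j + 1) → E n) :
    Om μ Y q (fun i => (v i, 0)) = pb (dY Y q.2 q.1) (μ (q.1 + q.2 • Y q.1)) v := by
  have h : (fun i => fderiv ℝ (fun q : E n × ℝ => q.1 + q.2 • Y q.1) q (v i, 0)) =
      fun i => dY Y q.2 q.1 (v i) := by
    funext i
    rw [D_H hY, zero_smul, add_zero]
  exact congrArg (μ (q.1 + q.2 • Y q.1)) h

private theorem Om_succ (hY : ContDiff ℝ ∞ Y) (μ : E n → Fk n (j + 1)) (q : E n × ℝ)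
    (v : Fin j → E n) :
    Om μ Y q (Fin.cons ((0 : E n), (1 : ℝ)) (fun i => (v i, (0 : ℝ)))) =
      pb (dY Y q.2 q.1) ((μ (q.1 + q.2 • Y q.1)).curryLeft (Y q.1)) v := by
  have h : (fun i => fderiv ℝ (fun q : E n × ℝ => q.1 + q.2 • Y q.1) q
      ((Fin.cons ((0 : E n), (1 : ℝ)) (fun i => (v i, (0 : ℝ))) :
        Fin (j + 1) → E n × ℝ) i)) =
      Matrix.vecCons (Y q.1) (fun i => dY Y q.2 q.1 (v i)) := by
    funext i
    refine Fin.cases ?_ (fun i => ?_) i
    · rw [Fin.cons_zero, D_H hY, map_zero, zero_add, one_smul]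
      rfl
    · rw [Fin.cons_succ, D_H hY, zero_smul, add_zero]
      rfl
  exact congrArg (μ (q.1 + q.2 • Y q.1)) h

end hom

/-- HMT. -/
theorem hHmt : SHmt := by
  intro n j Y hY
  refine ⟨fun μ hμ => ?_, fun u hu => ?_⟩
  · obtain ⟨G, hGd⟩ : ∃ G : E n × ℝ → Fk n j, ∀ x s,
        G (x, s) = pb (dY Y s x) ((μ (x + s • Y x)).curryLeft (Y x)) :=
      ⟨fun q => pb (dY Y q.2 q.1) ((μ (q.1 + q.2 • Y q.1)).curryLeft (Y q.1)), fun _ _ => rfl⟩
    obtain ⟨Φ, hΦd⟩ : ∃ Φ : E n × ℝ → Fk n (j + 1), ∀ x s,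
        Φ (x, s) = pb (dY Y s x) (μ (x + s • Y x)) :=
      ⟨fun q => pb (dY Y q.2 q.1) (μ (q.1 + q.2 • Y q.1)), fun _ _ => rfl⟩
    have hG : ContDiff ℝ ∞ G := by
      have h1 : G = fun q => pb (dY Y q.2 q.1) ((μ (q.1 + q.2 • Y q.1)).curryLeft (Y q.1)) := by
        funext q
        exact hGd q.1 q.2
      rw [h1]
      exact sm_pb (sm_cl (hμ.comp (sm_H hY)) (hY.comp contDiff_fst)) (sm_dY hY)
    have hΦ : ContDiff ℝ ∞ Φ := by
      have h1 : Φ = fun q => pb (dY Y q.2 q.1) (μ (q.1 + q.2 • Y q.1)) := by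
        funext q
        exact hΦd q.1 q.2
      rw [h1]
      exact sm_pb (hμ.comp (sm_H hY)) (sm_dY hY)
    have hhm : hmt μ Y = fun x => ∫ s in (0 : ℝ)..1, G (x, s) := by
      funext x
      simp only [hGd]
      rfl
    refine ⟨?_, ?_, ?_⟩
    · rw [hhm]
      exact Pool.Agent.Helper81.DSH.par_smooth (G := fun x s => G (x, s)) hG
    · intro hcl x
      rw [hhm, hom_abs Φ G hΦ hG (key_abs (Om μ Y) (Om_diff hY hμ) (Om_closed hY hμ hcl) Φ G
        (fun q v => by rw [Om_zero hY, ← hΦd]) (fun q v => by rw [Om_succ hY, ← hGd]) hG),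
        hΦd, hΦd]
      have h7 : dY Y 0 x = ContinuousLinearMap.id ℝ (E n) := by
        ext1 w
        simp only [dY, _root_.add_apply, _root_.smul_apply, zero_smul, add_zero]
      have h8 : pb (ContinuousLinearMap.id ℝ (E n)) (μ x) = μ x := by
        ext w
        rfl
      rw [one_smul, zero_smul, add_zero, h7, h8]
    · intro x
      have h1 : Continuous (fun s : ℝ => G (x, s)) :=
        hG.continuous.comp (continuous_const.prodMk continuous_id)
      simp only [hGd] at h1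
      exact h1
  · have hL : ContDiff ℝ ∞ (fun x => dY Y 1 x) :=
      (sm_dY hY).comp (contDiff_id.prodMk contDiff_const)
    have hf : ContDiff ℝ ∞ (fun x => x + Y x) := contDiff_id.add hY
    have hfd : ∀ x, fderiv ℝ (fun x => x + Y x) x = dY Y 1 x := by
      intro x
      have h1 := ((hasFDerivAt_id (𝕜 := ℝ) x).add
        ((hY.differentiable (by simp)) x).hasFDerivAt).fderiv
      ext1 w
      have h2 := congrArg (fun L : E n →L[ℝ] E n => L w) h1
      simp only [dY, _root_.add_apply, one_smul]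
      exact h2
    refine ⟨sm_pb (hu.comp hf) hL, fun x => ?_⟩
    have h0 : DifferentiableAt ℝ u (x + Y x) := (hu.differentiable (by simp)) _
    have h := extDeriv_pullback (𝕜 := ℝ) (r := ∞) (x := x) (f := fun x => x + Y x) h0
      hf.contDiffAt two_le
    simp only [hfd] at h
    exact h

end

end Pool.Agent.Helper22.QD
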